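import Mathlib
import Pool.Agent.X142.Renyi
import Pool.Agent.X142.RenyiParam

/-!
# MP_96db20_pr, Q1: Rényi entropies of branching random walk empirical measures

Q1 asks whether for every `α ∈ [0, ∞) \ {1}` and all `G, μ, π` almost surely
`H(α, M̂_n)/n → log ρ` if `ρ ≤ e^{h(α, μ)}` and `→ h(α, μ)` if `ρ > e^{h(α, μ)}`.

It is FALSE, and it fails for every `α ∈ [0, 1)`: for each such `α` there are a finitely generated
free group `G`, a finitely supported `μ`, and the offspring law `π = δ_2` (so `ρ = 2`), such that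
`ρ < e^{h(α, μ)}` while almost surely `limsup_n H(α, M̂_n)/n < log ρ`.

Reason: `μ` charges one letter with probability `1 - ε` and `d` other letters with probability
`ε / d` each.  All words are distinct group elements, so `∑_g μ^{*n}(g)^s = (∑_i μ_i^s)^n` for every
`s ≥ 0`, and `h(α, μ) = (1 - α)⁻¹ log ∑_i μ_i^α`.  On the other hand
`E #supp M̂_n ≤ ∑_g min(1, ρ^n μ^{*n}(g)) ≤ (ρ^s ∑_i μ_i^s)^n` for `0 < s ≤ 1`, and
`H(α, M̂_n) ≤ log #supp M̂_n`.

The definitions (`gen`, `pos`, `emp`, `renyi`, `convPow`, `law`) are in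
`Pool/Agent/X142/Renyi.lean`.
-/

open MeasureTheory Filter Topology ProbabilityTheory
open scoped ENNReal

namespace Pool.Agent.Results.MP_96db20_pr.BelowOne

open Pool.Agent.X142.Renyi

/-- The standing assumptions of the problem: `G` is infinite and finitely generated, `μ` has finite
Shannon entropy, `π(0) = 0`, `π` has finite second moment and mean `ρ > 1`. -/
structure Admissible (G : Type) [Group G] (μ : PMF G) (π : PMF ℕ) (ρ : ℝ) : Prop where
  infinite : Infinite G
  fg : Group.FG G
  entropy : Summable fun g : G => Real.negMulLog (μ g).toReal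
  noDeath : π 0 = 0
  second : ∑' k : ℕ, (k : ℝ≥0∞) ^ 2 * π k ≠ ∞
  mean : ∑' k : ℕ, (k : ℝ≥0∞) * π k = ENNReal.ofReal ρ
  one_lt : 1 < ρ

/-- For every `α ∈ [0, 1)` there is an admissible triple with `ρ < e^{h(α, μ)}` for which almost
surely `H(α, M̂_n)/n` stays below some `c < log ρ`. -/
theorem result (α : ℝ) (h0 : 0 ≤ α) (h1 : α < 1) :
    ∃ (G : Type) (_ : Group G) (μ : PMF G) (π : PMF ℕ) (ρ h : ℝ),
      Admissible G μ π ρ ∧
      Tendsto (fun n : ℕ => renyi α (convPow μ n) / (n : EReal)) atTop (𝓝 (h : EReal)) ∧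
      ρ < Real.exp h ∧
      ∃ c : ℝ, c < Real.log ρ ∧
        ∀ᵐ ω ∂(@law G ⊤ π μ), ∀ᶠ n : ℕ in atTop,
          renyi α (emp ω.1 ω.2 n) / (n : EReal) ≤ (c : EReal) := by
  obtain ⟨d, ε, hε, hε1, hd, hlow, hhigh⟩ := params α h0 h1
  set p := letter d ε hε hε1 hd with hp
  let : MeasurableSpace (FreeGroup (Fin (d + 1))) := ⊤
  have : DiscreteMeasurableSpace (FreeGroup (Fin (d + 1))) := ⟨fun _ => trivial⟩
  have hdpos : (0 : ℝ) < d := by exact_mod_cast hd
  set A : ℝ := (1 - ε) ^ α + d * (ε / d) ^ α with hA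
  have hApos : (2 : ℝ) ^ (1 - α) < A := by
    have : 0 < (1 - ε) ^ α := Real.rpow_pos_of_pos (by linarith) _
    linarith
  have hA0 : 0 < A := lt_trans (Real.rpow_pos_of_pos (by norm_num) _) hApos
  refine ⟨FreeGroup (Fin (d + 1)), inferInstance, mu p, PMF.pure 2, 2,
    (1 - α)⁻¹ * Real.log A, ?_, ?_, ?_, ?_⟩
  · refine ⟨inferInstance, inferInstance, ?_, ?_, ?_, ?_, by norm_num⟩
    · apply summable_of_hasFiniteSupport
      apply Set.Finite.subset (s := (mu p).support)
      · unfold mu
        rw [PMF.support_map]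
        exact (Set.toFinite _)
      · intro g hg
        rw [PMF.mem_support_iff]
        intro h
        apply hg
        simp [h]
    · rw [PMF.pure_apply]
      simp
    · rw [tsum_eq_single 2]
      · rw [PMF.pure_apply]
        norm_num
      · intro k hk
        rw [PMF.pure_apply, if_neg hk, mul_zero]
    · rw [tsum_eq_single 2]
      · rw [PMF.pure_apply]
        norm_num
      · intro k hk
        rw [PMF.pure_apply, if_neg hk, mul_zero]
  · apply Tendsto.congr' _ tendsto_const_nhds
    filter_upwards [eventually_gt_atTop 0] with n hn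
    unfold renyi
    rw [powSum_convPow p α h0 n, hp, S_letter d ε hε hε1 hd α h0, ← hA, ENNReal.log_pow,
      ENNReal.log_ofReal_of_pos hA0]
    have hn' : (n : ℝ) ≠ 0 := by exact_mod_cast hn.ne'
    have : ((n : ℕ) : EReal) = (((n : ℕ) : ℝ) : EReal) := by simp
    rw [this, ← EReal.coe_mul, ← EReal.coe_mul, ← EReal.coe_div]
    congr 1
    field_simp
  · rw [← Real.log_lt_iff_lt_exp (by norm_num)]
    have hpos : (0 : ℝ) < 1 - α := by linarith
    have h2 := Real.log_lt_log (Real.rpow_pos_of_pos (by norm_num) _) hApos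
    rw [Real.log_rpow (by norm_num)] at h2
    rw [lt_inv_mul_iff₀ hpos]
    exact h2
  · set s : ℝ := (1 + α) / 2 with hs
    have hs0 : 0 < s := by rw [hs]; linarith
    have hs1 : s ≤ 1 := by rw [hs]; linarith
    set B : ℝ := (1 - ε) ^ s + d * (ε / d) ^ s with hB
    have hB0 : 0 < B := by
      have : 0 < (1 - ε) ^ s := Real.rpow_pos_of_pos (by linarith) _
      positivity
    have hBlt : B < 2 ^ ((1 - α) / 2) := by
      have : (1 - ε) ^ s ≤ 1 := Real.rpow_le_one (by linarith) (by linarith) hs0.le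
      linarith
    set r : ℝ := 2 ^ s * B with hr
    have hr0 : 0 ≤ r := by positivity
    have hr2 : r < 2 := by
      calc r < 2 ^ s * 2 ^ ((1 - α) / 2) :=
            mul_lt_mul_of_pos_left hBlt (Real.rpow_pos_of_pos (by norm_num) _)
        _ = 2 := by
            rw [← Real.rpow_add (by norm_num)]
            have : s + (1 - α) / 2 = 1 := by rw [hs]; ring
            rw [this, Real.rpow_one]
    obtain ⟨c, hrc, hc2⟩ := exists_between hr2
    have hc0 : 0 < c := lt_of_le_of_lt hr0 hrc
    refine ⟨Real.log c, Real.log_lt_log hc0 hc2, ?_⟩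
    have hS : ∀ n, ((2 : ℝ≥0∞) ^ n) ^ s * powSum s (convPow (mu p) n) ≤ ENNReal.ofReal r ^ n := by
      intro n
      rw [powSum_convPow p s hs0.le n, hp, S_letter d ε hε hε1 hd s hs0.le, ← hB, hr,
        ENNReal.ofReal_mul (by positivity), mul_pow]
      apply le_of_eq
      congr 1
      rw [← ENNReal.ofReal_rpow_of_nonneg (by norm_num) hs0.le, ← ENNReal.rpow_natCast,
        ← ENNReal.rpow_natCast, ← ENNReal.rpow_mul, ← ENNReal.rpow_mul, mul_comm]
      norm_num
    have hae := ae_npos_lt (mu p) s r c hs0 hs1 hr0 hrc hS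
    have hN : ∀ᵐ N ∂(Measure.infinitePi fun _ : List ℕ => (PMF.pure 2 : PMF ℕ).toMeasure),
        N = fun _ => 2 := by
      have h2 : ∀ v : List ℕ, ∀ᵐ N
          ∂(Measure.infinitePi fun _ : List ℕ => (PMF.pure 2 : PMF ℕ).toMeasure), N v = 2 := by
        intro v
        have h3 : (Measure.infinitePi fun _ : List ℕ => (PMF.pure 2 : PMF ℕ).toMeasure).map
            (fun N => N v) = (PMF.pure 2 : PMF ℕ).toMeasure := Measure.infinitePi_map_eval _ v
        have h4 : ∀ᵐ k ∂((PMF.pure 2 : PMF ℕ).toMeasure), k = 2 := by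
          rw [ae_iff, PMF.toMeasure_apply_eq_zero_iff]
          · rw [PMF.support_pure, Set.disjoint_singleton_left]
            simp
          · exact MeasurableSet.of_discrete
        rw [← h3] at h4
        exact ae_of_ae_map (measurable_pi_apply v).aemeasurable h4
      filter_upwards [ae_all_iff.mpr h2] with N hN
      funext v
      exact hN v
    unfold law
    have hN' := (Measure.quasiMeasurePreserving_fst
      (μ := Measure.infinitePi fun _ : List ℕ => (PMF.pure 2 : PMF ℕ).toMeasure)
      (ν := lab (mu p))).ae hN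
    have hae' := (Measure.quasiMeasurePreserving_snd
      (μ := Measure.infinitePi fun _ : List ℕ => (PMF.pure 2 : PMF ℕ).toMeasure)
      (ν := lab (mu p))).ae hae
    filter_upwards [hN', hae'] with ω hω1 hω2
    filter_upwards [hω2, eventually_gt_atTop 0] with n hn hn0
    rw [hω1]
    have hn' : (0 : ℝ) < n := by exact_mod_cast hn0
    have hcast : ((n : ℕ) : EReal) = (((n : ℕ) : ℝ) : EReal) := by simp
    rw [hcast, EReal.div_le_iff_le_mul (by exact_mod_cast hn') (EReal.coe_ne_top _)]
    refine (renyi_emp_le (fun _ => 2) ω.2 n α h0 h1).trans ?_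
    refine (ENNReal.log_le_log hn.le).trans ?_
    rw [ENNReal.log_pow, ENNReal.log_ofReal_of_pos hc0, hcast]

end Pool.Agent.Results.MP_96db20_pr.BelowOne
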